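import Mathlib

/-!
# MP_4ccb00_al: linear algebra, definitions

Spaces of alternating bilinear forms over the field with `p` elements.
-/

set_option autoImplicit false

namespace Pool.Agent.Lib.MP4ccb00.LA

open Module

/-- bilinear forms on `V` -/
abbrev Form (p : ℕ) (V : Type) [AddCommGroup V] [Module (ZMod p) V] :=
  V →ₗ[ZMod p] V →ₗ[ZMod p] ZMod p

variable {p : ℕ} {V : Type} [AddCommGroup V] [Module (ZMod p) V]

variable (p V) in
/-- the alternating forms -/
def Alt : Submodule (ZMod p) (Form p V) where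
  carrier := {b | ∀ x, b x x = 0}
  zero_mem' := fun x => rfl
  add_mem' := by
    intro b c hb hc x
    rw [LinearMap.add_apply, LinearMap.add_apply, hb x, hc x, add_zero]
  smul_mem' := by
    intro r b hb x
    rw [LinearMap.smul_apply, LinearMap.smul_apply, hb x, smul_zero]

/-- the forms in `X` which vanish on `U × U` -/
def van (X : Submodule (ZMod p) (Form p V)) (U : Submodule (ZMod p) V) :
    Submodule (ZMod p) (Form p V) where
  carrier := {b | b ∈ X ∧ ∀ x ∈ U, ∀ y ∈ U, b x y = 0}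
  zero_mem' := ⟨X.zero_mem, fun _ _ _ _ => rfl⟩
  add_mem' := by
    rintro b c ⟨hb, hb'⟩ ⟨hc, hc'⟩
    refine ⟨X.add_mem hb hc, fun x hx y hy => ?_⟩
    rw [LinearMap.add_apply, LinearMap.add_apply, hb' x hx y hy, hc' x hx y hy, add_zero]
  smul_mem' := by
    rintro r b ⟨hb, hb'⟩
    refine ⟨X.smul_mem r hb, fun x hx y hy => ?_⟩
    rw [LinearMap.smul_apply, LinearMap.smul_apply, hb' x hx y hy, smul_zero]

/-- the form `b (g x) (g y)` -/
def pull (g : V →ₗ[ZMod p] V) (b : Form p V) : Form p V := b.compl₁₂ g g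

/-- the invariant linear functionals -/
def invD {Γ : Type} [Group Γ] (ρ : Γ →* (V ≃ₗ[ZMod p] V)) : Submodule (ZMod p) (V →ₗ[ZMod p] ZMod p) where
  carrier := {f | ∀ g v, f (ρ g v) = f v}
  zero_mem' := fun _ _ => rfl
  add_mem' := by
    intro b c hb hc g v
    rw [LinearMap.add_apply, LinearMap.add_apply, hb g v, hc g v]
  smul_mem' := by
    intro r b hb g v
    rw [LinearMap.smul_apply, LinearMap.smul_apply, hb g v]

/-- the invariant alternating forms -/
def invA {Γ : Type} [Group Γ] (ρ : Γ →* (V ≃ₗ[ZMod p] V)) : Submodule (ZMod p) (Form p V) where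
  carrier := {b | (∀ x, b x x = 0) ∧ ∀ g x y, b (ρ g x) (ρ g y) = b x y}
  zero_mem' := ⟨fun _ => rfl, fun _ _ _ => rfl⟩
  add_mem' := by
    rintro b c ⟨hb, hb'⟩ ⟨hc, hc'⟩
    refine ⟨fun x => ?_, fun g x y => ?_⟩
    · rw [LinearMap.add_apply, LinearMap.add_apply, hb x, hc x, add_zero]
    · rw [LinearMap.add_apply, LinearMap.add_apply, LinearMap.add_apply, LinearMap.add_apply,
        hb' g x y, hc' g x y]
  smul_mem' := by
    rintro r b ⟨hb, hb'⟩
    refine ⟨fun x => ?_, fun g x y => ?_⟩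
    · rw [LinearMap.smul_apply, LinearMap.smul_apply, hb x, smul_zero]
    · rw [LinearMap.smul_apply, LinearMap.smul_apply, LinearMap.smul_apply, LinearMap.smul_apply,
        hb' g x y]

end Pool.Agent.Lib.MP4ccb00.LA
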