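import Pool.Agent.Lib.MP_4ccb00_al.LA.Spec

section
/-!
# MP_4ccb00_al: linear algebra, common isotropic subspace

A space of alternating forms of rank at most `r` vanishes on a subspace of codimension at most `2 r`.
-/
set_option autoImplicit false

namespace Pool.Agent.Lib.MP4ccb00.LA

open Module

variable {p : ℕ} [Fact p.Prime] {V : Type} [AddCommGroup V] [Module (ZMod p) V]

/-- the rank of a form -/
noncomputable def rk (b : Form p V) : ℕ := finrank (ZMod p) (LinearMap.range b)

theorem skew {b : Form p V} (h : b ∈ Alt p V) (x y : V) : b x y = - b y x := by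
  have h1 : b (x + y) (x + y) = 0 := h (x + y)
  have h2 : b x x = 0 := h x
  have h3 : b y y = 0 := h y
  rw [map_add, map_add, LinearMap.add_apply, LinearMap.add_apply, h2, h3, zero_add, add_zero,
    add_comm] at h1
  exact eq_neg_of_add_eq_zero_left h1

/-- restriction of forms to a subspace -/
def res (W : Submodule (ZMod p) V) : Form p V →ₗ[ZMod p] Form p W where
  toFun := fun b => b.domRestrict₁₂ W W
  map_add' := fun _ _ => rfl
  map_smul' := fun _ _ => rfl

theorem res_apply (W : Submodule (ZMod p) V) (b : Form p V) (x y : W) : res W b x y = b x y := rfl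

theorem res_alt (W : Submodule (ZMod p) V) {b : Form p V} (h : b ∈ Alt p V) : res W b ∈ Alt p W :=
  fun x => h x

/-- the key inequality: if `a`, `a + b` and `b` are alternating, then the rank of `b` on the radical of
`a` satisfies `rk a + 2 rk (b on the radical) ≤ rk (a + b) + rk b` -/
theorem key_rank [FiniteDimensional (ZMod p) V] {a b : Form p V} (ha : a ∈ Alt p V) :
    rk a + 2 * rk (res (LinearMap.ker a) b) ≤ rk (a + b) + rk b := by
  set K := LinearMap.ker a with hK
  -- `M = b (K)`
  set M : Submodule (ZMod p) (V →ₗ[ZMod p] ZMod p) := K.map b with hM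
  have hMA : M ≤ LinearMap.range (a + b) := by
    rintro _ ⟨x, hx, rfl⟩
    refine ⟨x, ?_⟩
    have : a x = 0 := hx
    rw [LinearMap.add_apply, this, zero_add]
  have hMB : M ≤ LinearMap.range b := by
    rintro _ ⟨x, _, rfl⟩
    exact ⟨x, rfl⟩
  -- restriction of functionals to `K`
  set R : (V →ₗ[ZMod p] ZMod p) →ₗ[ZMod p] (K →ₗ[ZMod p] ZMod p) := K.subtype.dualMap with hR
  have hMR : M.map R = LinearMap.range (res K b) := by
    ext f
    constructor
    · rintro ⟨_, ⟨x, hx, rfl⟩, rfl⟩
      exact ⟨⟨x, hx⟩, rfl⟩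
    · rintro ⟨x, rfl⟩
      exact ⟨b x, ⟨x, x.2, rfl⟩, rfl⟩
  have hcM : rk (res K b) ≤ finrank (ZMod p) M := by
    unfold rk
    rw [← hMR]
    exact Submodule.finrank_map_le R M
  -- the sum
  set S := LinearMap.range a ⊔ M with hS
  have hSle : S ≤ LinearMap.range (a + b) ⊔ LinearMap.range b := by
    refine sup_le ?_ (hMA.trans le_sup_left)
    rintro _ ⟨x, rfl⟩
    have : a x = (a + b) x + b (-x) := by
      rw [LinearMap.add_apply, map_neg]
      abel
    rw [this]
    exact Submodule.add_mem_sup ⟨x, rfl⟩ ⟨-x, rfl⟩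
  have hSdim : rk a + rk (res K b) ≤ finrank (ZMod p) S := by
    have h1 := LinearMap.finrank_range_add_finrank_ker (K := ZMod p) (V := S)
      (V₂ := K →ₗ[ZMod p] ZMod p) (R.domRestrict S)
    have h2 : rk (res K b) ≤ finrank (ZMod p) (LinearMap.range (R.domRestrict S)) := by
      unfold rk
      rw [← hMR]
      refine Submodule.finrank_mono ?_
      rintro _ ⟨f, hf, rfl⟩
      exact ⟨⟨f, Submodule.mem_sup_right hf⟩, rfl⟩
    have h3 : rk a ≤ finrank (ZMod p) (LinearMap.ker (R.domRestrict S)) := by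
      unfold rk
      have h4 : ∀ f : LinearMap.range a,
          (⟨f, Submodule.mem_sup_left f.2⟩ : S) ∈ LinearMap.ker (R.domRestrict S) := by
        rintro ⟨_, ⟨x, rfl⟩⟩
        rw [LinearMap.mem_ker]
        ext y
        have h5 : a y = 0 := y.2
        show a x y = 0
        rw [skew ha, h5, LinearMap.zero_apply, neg_zero]
      let g : LinearMap.range a →ₗ[ZMod p] LinearMap.ker (R.domRestrict S) :=
        { toFun := fun f => ⟨⟨f, Submodule.mem_sup_left f.2⟩, h4 f⟩
          map_add' := fun _ _ => rfl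
          map_smul' := fun _ _ => rfl }
      refine LinearMap.finrank_le_finrank_of_injective (f := g) ?_
      intro f f' hff
      have := congrArg (fun z => ((z : LinearMap.ker (R.domRestrict S)) : S)) hff
      exact Subtype.ext (congrArg (fun z : S => (z : V →ₗ[ZMod p] ZMod p)) this)
    omega
  have h6 := Submodule.finrank_sup_add_finrank_inf_eq (LinearMap.range (a + b)) (LinearMap.range b)
  have h7 : finrank (ZMod p) S ≤
      finrank (ZMod p) (LinearMap.range (a + b) ⊔ LinearMap.range b : Submodule (ZMod p) _) :=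
    Submodule.finrank_mono hSle
  have h8 : finrank (ZMod p) M ≤
      finrank (ZMod p) (LinearMap.range (a + b) ⊓ LinearMap.range b : Submodule (ZMod p) _) :=
    Submodule.finrank_mono (le_inf hMA hMB)
  have h9 : rk (a + b) = finrank (ZMod p) (LinearMap.range (a + b)) := rfl
  have h10 : rk b = finrank (ZMod p) (LinearMap.range b) := rfl
  omega

/-- a space of alternating forms of rank at most `r` vanishes on a subspace of codimension at most
`2 r` -/
theorem exists_isotropic (r : ℕ) : ∀ (V : Type) [AddCommGroup V] [Module (ZMod p) V]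
    [FiniteDimensional (ZMod p) V] (L : Submodule (ZMod p) (Form p V)), L ≤ Alt p V →
    (∀ b ∈ L, rk b ≤ r) → ∃ U : Submodule (ZMod p) V, (∀ b ∈ L, ∀ x ∈ U, ∀ y ∈ U, b x y = 0) ∧
      finrank (ZMod p) V ≤ finrank (ZMod p) U + 2 * r := by
  induction r using Nat.strong_induction_on with
  | _ r ih =>
    intro V _ _ _ L hL hr
    have : Finite V := Module.finite_of_finite (ZMod p)
    have : Finite (Form p V) := Module.finite_of_finite (ZMod p)
    obtain ⟨a, ha, hmax⟩ := Set.exists_max_image (L : Set (Form p V)) rk (Set.toFinite _)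
      ⟨0, L.zero_mem⟩
    have ha : a ∈ L := ha
    rcases Nat.eq_zero_or_pos (rk a) with h0 | h0
    · refine ⟨⊤, ?_, ?_⟩
      · intro b hb x _ y _
        have h1 : rk b ≤ 0 := h0 ▸ hmax b hb
        have h2 : LinearMap.range b = ⊥ := Submodule.finrank_eq_zero.1 (Nat.le_zero.1 h1)
        have h3 : b x ∈ LinearMap.range b := ⟨x, rfl⟩
        rw [h2, Submodule.mem_bot] at h3
        rw [h3, LinearMap.zero_apply]
      · rw [finrank_top]
        exact Nat.le_add_right _ _
    · have hle : rk a / 2 < r := by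
        have := hr a ha
        omega
      obtain ⟨U, hU, hU2⟩ := ih (rk a / 2) hle (LinearMap.ker a) (L.map (res (LinearMap.ker a)))
        (by
          rintro _ ⟨b, hb, rfl⟩
          exact res_alt _ (hL hb))
        (by
          rintro _ ⟨b, hb, rfl⟩
          have h1 := key_rank (b := b) (hL ha)
          have h2 := hmax (a + b) (L.add_mem ha hb)
          have h3 := hmax b hb
          omega)
      refine ⟨U.map (LinearMap.ker a).subtype, ?_, ?_⟩
      · rintro b hb _ ⟨x, hx, rfl⟩ _ ⟨y, hy, rfl⟩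
        exact hU (res _ b) (Submodule.mem_map_of_mem hb) x hx y hy
      · have h1 : finrank (ZMod p) (U.map (LinearMap.ker a).subtype) = finrank (ZMod p) U :=
          Submodule.finrank_map_subtype_eq _ U
        have h2 := LinearMap.finrank_range_add_finrank_ker (K := ZMod p) (V := V)
          (V₂ := V →ₗ[ZMod p] ZMod p) a
        have h3 : rk a = finrank (ZMod p) (LinearMap.range a) := rfl
        have h4 := hr a ha
        omega

end Pool.Agent.Lib.MP4ccb00.LA
end

section
/-!
# MP_4ccb00_al: linear algebra, random vectors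

If `4 j ≤ k`, `2 n + 2 ≤ j k`, then there is a set `T` of at most `2 k` vectors such that all forms in
`X` which vanish on the span of `T` have rank less than `2 j`.
-/
set_option autoImplicit false

namespace Pool.Agent.Lib.MP4ccb00.LA

open Module

theorem exists_avoid {α β : Type} [Finite α] [Finite β] (P : α → β → Prop) (m : ℕ)
    (h : ∀ w, Nat.card {a // P a w} ≤ m) (hlt : Nat.card β * m < Nat.card α) :
    ∃ a, ∀ w, ¬ P a w := by
  by_contra hcon
  push Not at hcon
  have := Fintype.ofFinite β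
  have h1 : Nat.card α ≤ Nat.card (Σ w, {a // P a w}) := by
    refine Nat.card_le_card_of_surjective (fun x => x.2.1) ?_
    intro a
    obtain ⟨w, hw⟩ := hcon a
    exact ⟨⟨w, ⟨a, hw⟩⟩, rfl⟩
  rw [Nat.card_sigma] at h1
  have h2 : ∑ w, Nat.card {a // P a w} ≤ ∑ _w : β, m := Finset.sum_le_sum fun w _ => h w
  rw [Finset.sum_const, smul_eq_mul, Finset.card_univ, ← Nat.card_eq_fintype_card] at h2
  omega

theorem card_exists_le {α β : Type} [Finite α] [Finite β] (P : α → β → Prop) (m : ℕ)
    (h : ∀ w, Nat.card {a // P a w} ≤ m) : Nat.card {a // ∃ w, P a w} ≤ Nat.card β * m := by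
  have := Fintype.ofFinite β
  have h1 : Nat.card {a // ∃ w, P a w} ≤ Nat.card (Σ w, {a // P a w}) := by
    refine Nat.card_le_card_of_surjective (fun x => ⟨x.2.1, x.1, x.2.2⟩) ?_
    rintro ⟨a, w, hw⟩
    exact ⟨⟨w, ⟨a, hw⟩⟩, rfl⟩
  rw [Nat.card_sigma] at h1
  have h2 : ∑ w, Nat.card {a // P a w} ≤ ∑ _w : β, m := Finset.sum_le_sum fun w _ => h w
  rw [Finset.sum_const, smul_eq_mul, Finset.card_univ, ← Nat.card_eq_fintype_card] at h2
  exact h1.trans h2

variable {p : ℕ} [Fact p.Prime] {V : Type} [AddCommGroup V] [Module (ZMod p) V]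

local instance grpX (X : Submodule (ZMod p) (Form p V)) : AddCommGroup X :=
  Module.addCommMonoidToAddCommGroup (ZMod p)

theorem card_space (p : ℕ) [Fact p.Prime] (V : Type) [AddCommGroup V] [Module (ZMod p) V]
    [FiniteDimensional (ZMod p) V] : Nat.card V = p ^ finrank (ZMod p) V := by
  rw [Module.natCard_eq_pow_finrank (K := ZMod p), Nat.card_zmod]

/-- the number of `k`-tuples in a subspace -/
theorem card_tuples [FiniteDimensional (ZMod p) V] (C : Submodule (ZMod p) V) (k : ℕ) :
    Nat.card {a : Fin k → V // ∀ i, a i ∈ C} = p ^ (finrank (ZMod p) C * k) := by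
  have e : {a : Fin k → V // ∀ i, a i ∈ C} ≃ (Fin k → C) :=
    { toFun := fun a i => ⟨a.1 i, a.2 i⟩
      invFun := fun a => ⟨fun i => a i, fun i => (a i).2⟩
      left_inv := fun _ => rfl
      right_inv := fun _ => rfl }
  rw [Nat.card_congr e, Nat.card_fun, Nat.card_eq_fintype_card (α := Fin k), Fintype.card_fin,
    card_space p C, ← pow_mul]

/-- the number of `k`-tuples -/
theorem card_tuples' (p : ℕ) [Fact p.Prime] (V : Type) [AddCommGroup V] [Module (ZMod p) V]
    [FiniteDimensional (ZMod p) V] (k : ℕ) :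
    Nat.card (Fin k → V) = p ^ (finrank (ZMod p) V * k) := by
  rw [Nat.card_fun, Nat.card_eq_fintype_card (α := Fin k), Fintype.card_fin, card_space p V, ← pow_mul]

/-- a subspace of dimension at most `m` is spanned by `m` vectors -/
theorem exists_span {W : Type} [AddCommGroup W] [Module (ZMod p) W] [FiniteDimensional (ZMod p) W]
    (S R : Submodule (ZMod p) W) (hSR : S ≤ R) (m : ℕ) (h : finrank (ZMod p) S ≤ m) :
    ∃ w : Fin m → R, S ≤ Submodule.span (ZMod p) (Set.range fun i => (w i : W)) := by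
  let b := Module.finBasis (ZMod p) S
  refine ⟨fun i => if hi : (i : ℕ) < finrank (ZMod p) S then ⟨b ⟨i, hi⟩, hSR (b ⟨i, hi⟩).2⟩ else 0,
    ?_⟩
  intro x hx
  have h1 := b.sum_repr ⟨x, hx⟩
  have h2 : x = ∑ i, b.repr ⟨x, hx⟩ i • (b i : W) := by
    conv_lhs => rw [show x = ((⟨x, hx⟩ : S) : W) from rfl, ← h1]
    rw [Submodule.coe_sum]
    rfl
  rw [h2]
  refine Submodule.sum_mem _ fun i _ => Submodule.smul_mem _ _ (Submodule.subset_span ?_)
  refine ⟨⟨i, lt_of_lt_of_le i.2 h⟩, ?_⟩
  simp

/-- finrank of a preimage -/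
theorem finrank_comap_le {W : Type} [AddCommGroup W] [Module (ZMod p) W]
    [FiniteDimensional (ZMod p) V] [FiniteDimensional (ZMod p) W]
    (f : V →ₗ[ZMod p] W) (S : Submodule (ZMod p) W) :
    finrank (ZMod p) (S.comap f) + finrank (ZMod p) (LinearMap.range f) ≤
      finrank (ZMod p) S + finrank (ZMod p) V := by
  have h1 := LinearMap.finrank_range_add_finrank_ker (K := ZMod p) (V := V) (V₂ := W) f
  have h2 := LinearMap.finrank_range_add_finrank_ker (K := ZMod p) (V := S.comap f) (V₂ := W)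
    (f.domRestrict (S.comap f))
  have h3 : finrank (ZMod p) (LinearMap.range (f.domRestrict (S.comap f))) ≤ finrank (ZMod p) S := by
    refine Submodule.finrank_mono ?_
    rintro _ ⟨x, rfl⟩
    exact x.2
  have h4 : finrank (ZMod p) (LinearMap.ker (f.domRestrict (S.comap f))) ≤
      finrank (ZMod p) (LinearMap.ker f) := by
    let g : LinearMap.ker (f.domRestrict (S.comap f)) →ₗ[ZMod p] LinearMap.ker f :=
      { toFun := fun x => ⟨x.1.1, x.2⟩
        map_add' := fun _ _ => rfl
        map_smul' := fun _ _ => rfl }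
    refine LinearMap.finrank_le_finrank_of_injective (f := g) ?_
    intro x y hxy
    exact Subtype.ext (Subtype.ext (congrArg (fun z : LinearMap.ker f => (z : V)) hxy))
  omega

/-- the span of the functionals `b (a i)` -/
def spn (b : Form p V) {k : ℕ} (a : Fin k → V) : Submodule (ZMod p) (V →ₗ[ZMod p] ZMod p) :=
  Submodule.span (ZMod p) (Set.range fun i => b (a i))

/-- the number of the tuples `a` with small `spn b a` -/
theorem card_bad [FiniteDimensional (ZMod p) V] (b : Form p V) (j k : ℕ) :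
    Nat.card {a : Fin k → V // finrank (ZMod p) (spn b a) ≤ j} ≤
      p ^ (rk b * j) * p ^ ((j + (finrank (ZMod p) V - rk b)) * k) := by
  have : Finite V := Module.finite_of_finite (ZMod p)
  have : Finite (Fin j → LinearMap.range b) := by
    have : Finite (LinearMap.range b) := Module.finite_of_finite (ZMod p)
    infer_instance
  have hle : rk b ≤ finrank (ZMod p) V := LinearMap.finrank_range_le b
  have h1 : Nat.card {a : Fin k → V // finrank (ZMod p) (spn b a) ≤ j} ≤
      Nat.card {a : Fin k → V // ∃ w : Fin j → LinearMap.range b, ∀ i, a i ∈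
        (Submodule.span (ZMod p) (Set.range fun i => (w i : V →ₗ[ZMod p] ZMod p))).comap b} := by
    refine Nat.card_le_card_of_injective (fun a => ⟨a.1, ?_⟩) ?_
    · obtain ⟨w, hw⟩ := exists_span (spn b a.1) (LinearMap.range b) (by
        unfold spn
        rw [Submodule.span_le]
        rintro _ ⟨i, rfl⟩
        exact ⟨_, rfl⟩) j a.2
      exact ⟨w, fun i => hw (Submodule.subset_span ⟨i, rfl⟩)⟩
    · intro a a' haa
      exact Subtype.ext (congrArg (fun z => z.1) haa)
  refine h1.trans ?_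
  have h2 := card_exists_le (fun (a : Fin k → V) (w : Fin j → LinearMap.range b) => ∀ i, a i ∈
        (Submodule.span (ZMod p) (Set.range fun i => (w i : V →ₗ[ZMod p] ZMod p))).comap b)
      (p ^ ((j + (finrank (ZMod p) V - rk b)) * k)) (by
        intro w
        rw [card_tuples]
        refine Nat.pow_le_pow_right (Fact.out : p.Prime).pos (Nat.mul_le_mul_right _ ?_)
        have h3 := finrank_comap_le b
          (Submodule.span (ZMod p) (Set.range fun i => (w i : V →ₗ[ZMod p] ZMod p)))
        have h4 : finrank (ZMod p)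
            (Submodule.span (ZMod p) (Set.range fun i => (w i : V →ₗ[ZMod p] ZMod p))) ≤ j := by
          have := finrank_range_le_card (R := ZMod p) (fun i => (w i : V →ₗ[ZMod p] ZMod p))
          rw [Fintype.card_fin] at this
          exact this
        have h5 : rk b = finrank (ZMod p) (LinearMap.range b) := rfl
        omega)
  rw [card_tuples' p (LinearMap.range b)] at h2
  exact h2

theorem arith {n j k ρ D : ℕ} (hj : 1 ≤ j) (hk : 4 * j ≤ k) (hjk : 2 * n + 2 ≤ j * k)
    (hρ : 2 * j ≤ ρ) (hD : ρ ≤ D) :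
    n + (ρ * (j - 1) + ((j - 1) + (D - ρ)) * k) < D * k := by
  obtain ⟨i, rfl⟩ : ∃ i, j = i + 1 := ⟨j - 1, by omega⟩
  obtain ⟨u, rfl⟩ : ∃ u, D = ρ + u := ⟨D - ρ, by omega⟩
  obtain ⟨v, rfl⟩ : ∃ v, ρ = 2 * (i + 1) + v := ⟨ρ - 2 * (i + 1), by omega⟩
  obtain ⟨w, rfl⟩ : ∃ w, k = 4 * (i + 1) + w := ⟨k - 4 * (i + 1), by omega⟩
  simp only [Nat.add_sub_cancel, Nat.add_sub_cancel_left]
  nlinarith

/-- good vectors `a` -/
theorem exists_a [FiniteDimensional (ZMod p) V] (X : Submodule (ZMod p) (Form p V)) (n j k : ℕ)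
    (hX : finrank (ZMod p) X ≤ n) (hj : 1 ≤ j) (hk : 4 * j ≤ k) (hjk : 2 * n + 2 ≤ j * k) :
    ∃ a : Fin k → V, ∀ b ∈ X, 2 * j ≤ rk b → j ≤ finrank (ZMod p) (spn b a) := by
  have : Finite V := Module.finite_of_finite (ZMod p)
  have : Finite X := Module.finite_of_finite (ZMod p)
  have hp := (Fact.out : p.Prime)
  rcases Nat.lt_or_ge (finrank (ZMod p) V * k) (n + 1) with hsmall | hbig
  · refine ⟨0, fun b _ hb => ?_⟩
    exfalso
    have h1 : rk b ≤ finrank (ZMod p) V := LinearMap.finrank_range_le b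
    have h2 := arith hj hk hjk hb h1
    omega
  · obtain ⟨a, ha⟩ := exists_avoid
      (fun (a : Fin k → V) (b : X) => 2 * j ≤ rk (b : Form p V) ∧ finrank (ZMod p) (spn (b : Form p V) a) ≤ j - 1)
      (p ^ (finrank (ZMod p) V * k - n - 1)) (by
        intro b
        by_cases hb : 2 * j ≤ rk (b : Form p V)
        · have h0 : Nat.card {a : Fin k → V // 2 * j ≤ rk (b : Form p V) ∧
              finrank (ZMod p) (spn (b : Form p V) a) ≤ j - 1} ≤
              Nat.card {a : Fin k → V // finrank (ZMod p) (spn (b : Form p V) a) ≤ j - 1} :=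
            Nat.card_le_card_of_injective (fun a => ⟨a.1, a.2.2⟩) (by
              intro a a' haa
              exact Subtype.ext (congrArg (fun z => z.1) haa))
          refine h0.trans ((card_bad (b : Form p V) (j - 1) k).trans ?_)
          rw [← pow_add]
          refine Nat.pow_le_pow_right hp.pos ?_
          have h1 : rk (b : Form p V) ≤ finrank (ZMod p) V := LinearMap.finrank_range_le _
          have h2 := arith hj hk hjk hb h1
          omega
        · have : IsEmpty {a : Fin k → V // 2 * j ≤ rk (b : Form p V) ∧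
              finrank (ZMod p) (spn (b : Form p V) a) ≤ j - 1} := ⟨fun a => hb a.2.1⟩
          rw [Nat.card_of_isEmpty]
          exact Nat.zero_le _)
      (by
        rw [card_space p X, card_tuples' p V, ← pow_add]
        exact Nat.pow_lt_pow_right hp.one_lt (by omega))
    refine ⟨a, fun b hb hb2 => ?_⟩
    have := ha ⟨b, hb⟩
    simp only [not_and, not_le] at this
    have := this hb2
    omega

/-- good vectors `c` for given `a` -/
theorem exists_c [FiniteDimensional (ZMod p) V] (X : Submodule (ZMod p) (Form p V)) (n j k : ℕ)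
    (hX : finrank (ZMod p) X ≤ n) (hjk : n + 1 ≤ j * k) (a : Fin k → V) :
    ∃ c : Fin k → V, ∀ b ∈ X, (∀ i l, b (a i) (c l) = 0) → finrank (ZMod p) (spn b a) < j := by
  have : Finite V := Module.finite_of_finite (ZMod p)
  have : Finite X := Module.finite_of_finite (ZMod p)
  have hp := (Fact.out : p.Prime)
  rcases Nat.lt_or_ge (finrank (ZMod p) V) j with hsmall | hbig
  · refine ⟨0, fun b _ _ => ?_⟩
    have h1 : finrank (ZMod p) (spn b a) ≤ finrank (ZMod p) (V →ₗ[ZMod p] ZMod p) :=
      Submodule.finrank_le _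
    have h2 : finrank (ZMod p) (V →ₗ[ZMod p] ZMod p) = finrank (ZMod p) V :=
      Subspace.dual_finrank_eq (K := ZMod p) (V := V)
    omega
  · obtain ⟨c, hc⟩ := exists_avoid
      (fun (c : Fin k → V) (b : X) => j ≤ finrank (ZMod p) (spn (b : Form p V) a) ∧
        ∀ l, c l ∈ (spn (b : Form p V) a).dualCoannihilator)
      (p ^ ((finrank (ZMod p) V - j) * k)) (by
        intro b
        by_cases hb : j ≤ finrank (ZMod p) (spn (b : Form p V) a)
        · have h0 : Nat.card {c : Fin k → V // j ≤ finrank (ZMod p) (spn (b : Form p V) a) ∧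
              ∀ l, c l ∈ (spn (b : Form p V) a).dualCoannihilator} ≤
              Nat.card {c : Fin k → V // ∀ l, c l ∈ (spn (b : Form p V) a).dualCoannihilator} :=
            Nat.card_le_card_of_injective (fun a => ⟨a.1, a.2.2⟩) (by
              intro a a' haa
              exact Subtype.ext (congrArg (fun z => z.1) haa))
          refine h0.trans ?_
          rw [card_tuples]
          refine Nat.pow_le_pow_right hp.pos (Nat.mul_le_mul_right _ ?_)
          have h1 : finrank (ZMod p) (spn (b : Form p V) a) +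
              finrank (ZMod p) (spn (b : Form p V) a).dualCoannihilator = finrank (ZMod p) V :=
            Subspace.finrank_add_finrank_dualCoannihilator_eq (K := ZMod p) (V := V) _
          omega
        · have : IsEmpty {c : Fin k → V // j ≤ finrank (ZMod p) (spn (b : Form p V) a) ∧
              ∀ l, c l ∈ (spn (b : Form p V) a).dualCoannihilator} := ⟨fun a => hb a.2.1⟩
          rw [Nat.card_of_isEmpty]
          exact Nat.zero_le _)
      (by
        rw [card_space p X, card_tuples' p V, ← pow_add]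
        refine Nat.pow_lt_pow_right hp.one_lt ?_
        obtain ⟨u, hu⟩ : ∃ u, finrank (ZMod p) V = j + u := ⟨finrank (ZMod p) V - j, by omega⟩
        rw [hu, Nat.add_sub_cancel_left, Nat.add_mul]
        omega)
    refine ⟨c, fun b hb hb2 => ?_⟩
    by_contra hcon
    refine hc ⟨b, hb⟩ ⟨not_lt.1 hcon, fun l => ?_⟩
    rw [Submodule.mem_dualCoannihilator]
    intro φ hφ
    have hφ' : φ ∈ spn b a := hφ
    unfold spn at hφ'
    induction hφ' using Submodule.span_induction with
    | mem x hx =>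
      obtain ⟨i, rfl⟩ := hx
      exact hb2 i l
    | zero => rfl
    | add x y hx hy ihx ihy =>
      rw [LinearMap.add_apply, ihx hx, ihy hy, add_zero]
    | smul r x hx ihx =>
      rw [LinearMap.smul_apply, ihx hx, smul_zero]

/-- there is a set of at most `2 k` vectors such that all forms in `X` which vanish on its span have
rank less than `2 j` -/
theorem exists_T [FiniteDimensional (ZMod p) V] (X : Submodule (ZMod p) (Form p V)) (n j k : ℕ)
    (hX : finrank (ZMod p) X ≤ n) (hj : 1 ≤ j) (hk : 4 * j ≤ k) (hjk : 2 * n + 2 ≤ j * k) :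
    ∃ T : Finset V, T.card ≤ 2 * k ∧
      ∀ b ∈ van X (Submodule.span (ZMod p) (T : Set V)), rk b < 2 * j := by
  classical
  obtain ⟨a, ha⟩ := exists_a X n j k hX hj hk hjk
  obtain ⟨c, hc⟩ := exists_c X n j k hX (by omega) a
  refine ⟨Finset.univ.image a ∪ Finset.univ.image c, ?_, ?_⟩
  · refine (Finset.card_union_le _ _).trans ?_
    have h1 : (Finset.univ.image a).card ≤ k := by
      refine Finset.card_image_le.trans ?_
      rw [Finset.card_univ, Fintype.card_fin]
    have h2 : (Finset.univ.image c).card ≤ k := by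
      refine Finset.card_image_le.trans ?_
      rw [Finset.card_univ, Fintype.card_fin]
    omega
  · rintro b ⟨hb, hb2⟩
    by_contra hcon
    have h1 := ha b hb (not_lt.1 hcon)
    have h2 := hc b hb (fun i l => hb2 _ (Submodule.subset_span (by simp)) _
      (Submodule.subset_span (by simp)))
    omega

end Pool.Agent.Lib.MP4ccb00.LA
end

section
/-!
# MP_4ccb00_al: linear algebra, an invariant subspace of bounded codimension

If many forms of `X` vanish on some subspace of codimension at most `K₀`, then many forms of `X`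
vanish on a subspace of bounded codimension which is invariant under all automorphisms preserving `X`.
-/
set_option autoImplicit false
set_option linter.unusedSectionVars false
set_option linter.style.haveILetI false

namespace Pool.Agent.Lib.MP4ccb00.LA

open Module

section general

variable {p : ℕ} [Fact p.Prime] {M W : Type} [AddCommMonoid M] [Module (ZMod p) M]
  [Module.Finite (ZMod p) M] [AddCommMonoid W] [Module (ZMod p) W] [Module.Finite (ZMod p) W]

/-- dimension count for a linear map -/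
theorem fin_add (θ : M →ₗ[ZMod p] W) (S S' : Submodule (ZMod p) M)
    (h : ∀ b ∈ S, θ b = 0 → b ∈ S') :
    finrank (ZMod p) S ≤ finrank (ZMod p) S' + finrank (ZMod p) W := by
  letI : AddCommGroup M := Module.addCommMonoidToAddCommGroup (ZMod p)
  letI : AddCommGroup W := Module.addCommMonoidToAddCommGroup (ZMod p)
  have h1 := LinearMap.finrank_range_add_finrank_ker (K := ZMod p) (V := S) (V₂ := W)
    (θ.domRestrict S)
  have h2 : finrank (ZMod p) (LinearMap.range (θ.domRestrict S)) ≤ finrank (ZMod p) W :=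
    Submodule.finrank_le _
  have h3 : finrank (ZMod p) (LinearMap.ker (θ.domRestrict S)) ≤ finrank (ZMod p) S' := by
    let g : LinearMap.ker (θ.domRestrict S) →ₗ[ZMod p] S' :=
      { toFun := fun x => ⟨x.1.1, h x.1.1 x.1.2 x.2⟩
        map_add' := fun _ _ => rfl
        map_smul' := fun _ _ => rfl }
    refine LinearMap.finrank_le_finrank_of_injective (f := g) ?_
    intro x y hxy
    exact Subtype.ext (Subtype.ext (congrArg (fun z : S' => (z : M)) hxy))
  omega

theorem fin_sup_inf (S T : Submodule (ZMod p) M) :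
    finrank (ZMod p) (S ⊔ T : Submodule (ZMod p) M) +
      finrank (ZMod p) (S ⊓ T : Submodule (ZMod p) M) =
      finrank (ZMod p) S + finrank (ZMod p) T := by
  letI : AddCommGroup M := Module.addCommMonoidToAddCommGroup (ZMod p)
  exact Submodule.finrank_sup_add_finrank_inf_eq S T

theorem fin_mono {S T : Submodule (ZMod p) M} (h : S ≤ T) :
    finrank (ZMod p) S ≤ finrank (ZMod p) T := by
  letI : AddCommGroup M := Module.addCommMonoidToAddCommGroup (ZMod p)
  exact Submodule.finrank_mono h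

theorem fin_lt {S T : Submodule (ZMod p) M} (h : S < T) :
    finrank (ZMod p) S < finrank (ZMod p) T := by
  letI : AddCommGroup M := Module.addCommMonoidToAddCommGroup (ZMod p)
  exact Submodule.finrank_lt_finrank_of_lt h

theorem fin_le (S : Submodule (ZMod p) M) : finrank (ZMod p) S ≤ finrank (ZMod p) M := by
  letI : AddCommGroup M := Module.addCommMonoidToAddCommGroup (ZMod p)
  exact Submodule.finrank_le S

/-- relative complements -/
theorem exists_compl {P Q : Submodule (ZMod p) M} (h : P ≤ Q) : ∃ C : Submodule (ZMod p) M,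
    P ⊔ C = Q ∧ finrank (ZMod p) C + finrank (ZMod p) P = finrank (ZMod p) Q := by
  letI : AddCommGroup M := Module.addCommMonoidToAddCommGroup (ZMod p)
  obtain ⟨C', hC'⟩ := Submodule.exists_isCompl P
  refine ⟨Q ⊓ C', ?_, ?_⟩
  · rw [inf_comm, ← sup_inf_assoc_of_le C' h, hC'.sup_eq_top, top_inf_eq]
  · have h1 := Submodule.finrank_sup_add_finrank_inf_eq (K := ZMod p) (V := M) P (Q ⊓ C')
    have h2 : P ⊔ Q ⊓ C' = Q := by
      rw [inf_comm, ← sup_inf_assoc_of_le C' h, hC'.sup_eq_top, top_inf_eq]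
    have h3 : P ⊓ (Q ⊓ C') = ⊥ := by
      rw [eq_bot_iff]
      calc P ⊓ (Q ⊓ C') ≤ P ⊓ C' := inf_le_inf_left _ inf_le_right
        _ = ⊥ := hC'.inf_eq_bot
    rw [h2, h3, finrank_bot] at h1
    omega

end general

variable {p : ℕ} [Fact p.Prime] {V : Type} [AddCommGroup V] [Module (ZMod p) V]
  [FiniteDimensional (ZMod p) V]

theorem van_anti (X : Submodule (ZMod p) (Form p V)) {U U' : Submodule (ZMod p) V} (h : U' ≤ U) :
    van X U ≤ van X U' := fun _ hb => ⟨hb.1, fun x hx y hy => hb.2 x (h hx) y (h hy)⟩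

theorem van_le (X : Submodule (ZMod p) (Form p V)) (U : Submodule (ZMod p) V) : van X U ≤ X :=
  fun _ hb => hb.1

theorem bil4 (b : Form p V) (x0 x1 y0 y1 : V) :
    b (x0 + x1) (y0 + y1) = b x0 y0 + b x0 y1 + (b x1 y0 + b x1 y1) := by
  rw [map_add b, LinearMap.add_apply, map_add, map_add]

theorem van_inf {X : Submodule (ZMod p) (Form p V)} (hX : X ≤ Alt p V)
    {A B : Submodule (ZMod p) V} {cA cB : ℕ} (hA : finrank (ZMod p) V ≤ finrank (ZMod p) A + cA)
    (hB : finrank (ZMod p) V ≤ finrank (ZMod p) B + cB) :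
    finrank (ZMod p) (van X A ⊓ van X B : Submodule (ZMod p) (Form p V)) ≤
      finrank (ZMod p) (van X (A ⊔ B)) + cA * cB := by
  obtain ⟨A', hA', hA2⟩ := exists_compl (p := p) (inf_le_left : A ⊓ B ≤ A)
  obtain ⟨B', hB', hB2⟩ := exists_compl (p := p) (inf_le_right : A ⊓ B ≤ B)
  have hsi := fin_sup_inf (p := p) A B
  have hle : finrank (ZMod p) (A ⊔ B : Submodule (ZMod p) V) ≤ finrank (ZMod p) V := fin_le _
  have hA3 : finrank (ZMod p) A' ≤ cB := by omega
  have hB3 : finrank (ZMod p) B' ≤ cA := by omega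
  let θ : Form p V →ₗ[ZMod p] (A' →ₗ[ZMod p] B' →ₗ[ZMod p] ZMod p) :=
    { toFun := fun b => b.domRestrict₁₂ A' B'
      map_add' := fun _ _ => rfl
      map_smul' := fun _ _ => rfl }
  have h1 := fin_add θ (van X A ⊓ van X B) (van X (A ⊔ B)) (by
    rintro b ⟨⟨hbX, hbA⟩, ⟨_, hbB⟩⟩ hθ
    have h0 : ∀ x ∈ A', ∀ y ∈ B', b x y = 0 := by
      intro x hx y hy
      have h2 := congrArg (fun f : A' →ₗ[ZMod p] B' →ₗ[ZMod p] ZMod p => f ⟨x, hx⟩ ⟨y, hy⟩) hθ
      exact h2
    have hAB : ∀ x ∈ A, ∀ y ∈ B, b x y = 0 := by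
      intro x hx y hy
      rw [← hA'] at hx
      rw [← hB'] at hy
      obtain ⟨x0, hx0, x1, hx1, rfl⟩ := Submodule.mem_sup.1 hx
      obtain ⟨y0, hy0, y1, hy1, rfl⟩ := Submodule.mem_sup.1 hy
      have hy1B : y1 ∈ B := hB' ▸ Submodule.mem_sup_right hy1
      have hx1A : x1 ∈ A := hA' ▸ Submodule.mem_sup_right hx1
      have e1 : b x0 y0 = 0 := hbA x0 hx0.1 y0 hy0.1
      have e2 : b x0 y1 = 0 := hbB x0 hx0.2 y1 hy1B
      have e3 : b x1 y0 = 0 := hbA x1 hx1A y0 hy0.1
      have e4 : b x1 y1 = 0 := h0 x1 hx1 y1 hy1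
      rw [bil4, e1, e2, e3, e4]
      simp
    refine ⟨hbX, ?_⟩
    intro x hx y hy
    obtain ⟨x0, hx0, x1, hx1, rfl⟩ := Submodule.mem_sup.1 hx
    obtain ⟨y0, hy0, y1, hy1, rfl⟩ := Submodule.mem_sup.1 hy
    have e1 : b x0 y0 = 0 := hbA x0 hx0 y0 hy0
    have e2 : b x0 y1 = 0 := hAB x0 hx0 y1 hy1
    have e3 : b x1 y0 = 0 := by rw [skew (hX hbX), hAB y0 hy0 x1 hx1, neg_zero]
    have e4 : b x1 y1 = 0 := hbB x1 hx1 y1 hy1
    rw [bil4, e1, e2, e3, e4]
    simp)
  have h2 : finrank (ZMod p) (A' →ₗ[ZMod p] B' →ₗ[ZMod p] ZMod p) =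
      finrank (ZMod p) A' * finrank (ZMod p) B' := by
    rw [Module.finrank_linearMap, Module.finrank_linearMap, Module.finrank_self, mul_one]
  rw [h2] at h1
  refine h1.trans (Nat.add_le_add_left ?_ _)
  rw [mul_comm cA cB]
  exact Nat.mul_le_mul hA3 hB3

/-- `g` preserves `X` -/
def Pres (X : Submodule (ZMod p) (Form p V)) (g : V ≃ₗ[ZMod p] V) : Prop :=
  ∀ b ∈ X, pull (g : V →ₗ[ZMod p] V) b ∈ X

theorem pull_apply (g : V →ₗ[ZMod p] V) (b : Form p V) (x y : V) : pull g b x y = b (g x) (g y) := rfl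

theorem pull_symm (g : V ≃ₗ[ZMod p] V) (b : Form p V) :
    pull (g.symm : V →ₗ[ZMod p] V) (pull (g : V →ₗ[ZMod p] V) b) = b := by
  ext x y
  rw [pull_apply, pull_apply]
  simp

theorem pull_symm' (g : V ≃ₗ[ZMod p] V) (b : Form p V) :
    pull (g : V →ₗ[ZMod p] V) (pull (g.symm : V →ₗ[ZMod p] V) b) = b := by
  ext x y
  rw [pull_apply, pull_apply]
  simp

theorem Pres.symm {X : Submodule (ZMod p) (Form p V)} {g : V ≃ₗ[ZMod p] V} (h : Pres X g) :
    Pres X g.symm := by
  have : Finite V := Module.finite_of_finite (ZMod p)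
  have : Finite (Form p V) := Module.finite_of_finite (ZMod p)
  have : Finite X := inferInstance
  let f : X → X := fun b => ⟨pull (g : V →ₗ[ZMod p] V) b, h b b.2⟩
  have hf : Function.Injective f := by
    intro b c hbc
    have h1 : pull (g : V →ₗ[ZMod p] V) (b : Form p V) = pull (g : V →ₗ[ZMod p] V) (c : Form p V) :=
      congrArg (fun z : X => (z : Form p V)) hbc
    apply Subtype.ext
    rw [← pull_symm g (b : Form p V), h1, pull_symm]
  have hs := Finite.surjective_of_injective hf
  intro b hb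
  obtain ⟨c, hc⟩ := hs ⟨b, hb⟩
  have h1 : pull (g : V →ₗ[ZMod p] V) (c : Form p V) = b :=
    congrArg (fun z : X => (z : Form p V)) hc
  rw [← h1, pull_symm]
  exact c.2

theorem Pres.trans {X : Submodule (ZMod p) (Form p V)} {g h : V ≃ₗ[ZMod p] V} (hg : Pres X g)
    (hh : Pres X h) : Pres X (g.trans h) := by
  intro b hb
  exact hg _ (hh b hb)

theorem Pres.refl (X : Submodule (ZMod p) (Form p V)) : Pres X (LinearEquiv.refl (ZMod p) V) := by
  intro b hb
  exact hb

theorem finrank_van_map {X : Submodule (ZMod p) (Form p V)} {g : V ≃ₗ[ZMod p] V} (h : Pres X g)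
    (U : Submodule (ZMod p) V) : finrank (ZMod p) (van X U) ≤
      finrank (ZMod p) (van X (U.map (g : V →ₗ[ZMod p] V))) := by
  let f : van X U →ₗ[ZMod p] van X (U.map (g : V →ₗ[ZMod p] V)) :=
    { toFun := fun b => ⟨pull (g.symm : V →ₗ[ZMod p] V) b, h.symm b b.2.1, by
        rintro _ ⟨x, hx, rfl⟩ _ ⟨y, hy, rfl⟩
        rw [pull_apply]
        simp only [LinearEquiv.coe_coe, LinearEquiv.symm_apply_apply]
        exact b.2.2 x hx y hy⟩
      map_add' := fun _ _ => rfl
      map_smul' := fun _ _ => rfl }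
  refine LinearMap.finrank_le_finrank_of_injective (f := f) ?_
  intro b c hbc
  have h1 : pull (g.symm : V →ₗ[ZMod p] V) (b : Form p V) =
      pull (g.symm : V →ₗ[ZMod p] V) (c : Form p V) :=
    congrArg (fun z : van X (U.map (g : V →ₗ[ZMod p] V)) => (z : Form p V)) hbc
  apply Subtype.ext
  rw [← pull_symm' g (b : Form p V), h1, pull_symm']

theorem exists_inv {X : Submodule (ZMod p) (Form p V)} (hXA : X ≤ Alt p V) {n q q' M K₀ : ℕ}
    (hX : finrank (ZMod p) X ≤ n) {U₀ : Submodule (ZMod p) V}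
    (hU₀ : finrank (ZMod p) V ≤ finrank (ZMod p) U₀ + K₀)
    (h0 : (K₀ + 1) * q ≤ finrank (ZMod p) (van X U₀)) (hq : q' + (M + 1) * K₀ * K₀ ≤ q)
    (hM : n < (M + 1) * q') : ∃ U : Submodule (ZMod p) V,
      finrank (ZMod p) V ≤ finrank (ZMod p) U + (M + 1) * K₀ ∧ q ≤ finrank (ZMod p) (van X U) ∧
      ∀ g : V ≃ₗ[ZMod p] V, Pres X g → U.map (g : V →ₗ[ZMod p] V) = U := by
  classical
  have hP : ∃ k, ∃ U : Submodule (ZMod p) V, finrank (ZMod p) V ≤ finrank (ZMod p) U + k ∧
      (k + 1) * q ≤ finrank (ZMod p) (van X U) := ⟨K₀, U₀, hU₀, h0⟩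
  obtain ⟨k, ⟨U, hU, hU2⟩, hmin⟩ : ∃ k, (∃ U : Submodule (ZMod p) V,
      finrank (ZMod p) V ≤ finrank (ZMod p) U + k ∧ (k + 1) * q ≤ finrank (ZMod p) (van X U)) ∧
      ∀ k' < k, ∀ U : Submodule (ZMod p) V, finrank (ZMod p) V ≤ finrank (ZMod p) U + k' →
        finrank (ZMod p) (van X U) < (k' + 1) * q := by
    refine ⟨Nat.find hP, Nat.find_spec hP, ?_⟩
    intro k' hk' U hU
    by_contra hcon
    exact Nat.find_min hP hk' ⟨U, hU, not_lt.1 hcon⟩
  have hkK : k ≤ K₀ := by
    by_contra hcon
    have := hmin K₀ (not_le.1 hcon) U₀ hU₀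
    omega
  have hgU : ∀ g : V ≃ₗ[ZMod p] V, finrank (ZMod p) (U.map (g : V →ₗ[ZMod p] V)) =
      finrank (ZMod p) U := fun g => LinearEquiv.finrank_map_eq g U
  -- the greedy choice
  obtain ⟨i, hiM, ⟨S, hS, hS2⟩, hi⟩ : ∃ i ≤ M, (∃ S : Submodule (ZMod p) V,
      finrank (ZMod p) V ≤ finrank (ZMod p) S + (i + 1) * k ∧
        i * q' ≤ finrank (ZMod p) (van X S)) ∧
      ¬ ∃ S : Submodule (ZMod p) V, finrank (ZMod p) V ≤ finrank (ZMod p) S + (i + 1 + 1) * k ∧
        (i + 1) * q' ≤ finrank (ZMod p) (van X S) := by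
    by_contra hcon
    push Not at hcon
    have key : ∀ i ≤ M + 1, ∃ S : Submodule (ZMod p) V,
        finrank (ZMod p) V ≤ finrank (ZMod p) S + (i + 1) * k ∧
          i * q' ≤ finrank (ZMod p) (van X S) := by
      intro i
      induction i with
      | zero => exact fun _ => ⟨U, by omega, by omega⟩
      | succ i ih => exact fun h => hcon i (by omega) (ih (by omega))
    obtain ⟨S, _, h2⟩ := key (M + 1) le_rfl
    have h3 : finrank (ZMod p) (van X S) ≤ finrank (ZMod p) X := fin_mono (van_le X S)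
    omega
  have hSg : ∀ g : V ≃ₗ[ZMod p] V, Pres X g → S ≤ U.map (g : V →ₗ[ZMod p] V) := by
    intro g hg
    by_contra hcon
    apply hi
    have hgd := hgU g
    set A := U.map (g : V →ₗ[ZMod p] V) with hA
    have hsi := fin_sup_inf (p := p) S A
    have hle : finrank (ZMod p) (S ⊔ A : Submodule (ZMod p) V) ≤ finrank (ZMod p) V := fin_le _
    have hlt : finrank (ZMod p) A < finrank (ZMod p) (S ⊔ A : Submodule (ZMod p) V) := by
      refine fin_lt ?_
      refine lt_of_le_of_ne le_sup_right ?_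
      intro e
      exact hcon (e ▸ le_sup_left)
    refine ⟨S ⊓ A, ?_, ?_⟩
    · have : (i + 1 + 1) * k = (i + 1) * k + k := by ring
      omega
    · have h1 : finrank (ZMod p) (van X (S ⊔ A)) < k * q := by
        have h2 := hmin (k - 1) (by omega) (S ⊔ A) (by omega)
        have h3 : k - 1 + 1 = k := by omega
        rw [h3] at h2
        exact h2
      have h2 := van_inf hXA hS (show finrank (ZMod p) V ≤ finrank (ZMod p) A + k by omega)
      have h3 := fin_sup_inf (p := p) (van X S) (van X A)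
      have h4 : finrank (ZMod p) (van X S ⊔ van X A : Submodule (ZMod p) (Form p V)) ≤
          finrank (ZMod p) (van X (S ⊓ A)) :=
        fin_mono (sup_le (van_anti X inf_le_left) (van_anti X inf_le_right))
      have h5 : finrank (ZMod p) (van X U) ≤ finrank (ZMod p) (van X A) := finrank_van_map hg U
      have h6 : (i + 1) * k * k ≤ (M + 1) * K₀ * K₀ :=
        Nat.mul_le_mul (Nat.mul_le_mul (by omega) hkK) hkK
      have h7 : (k + 1) * q = k * q + q := by ring
      have h8 : (i + 1) * q' = i * q' + q' := by ring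
      omega
  refine ⟨⨅ g : {g : V ≃ₗ[ZMod p] V // Pres X g}, U.map ((g : V ≃ₗ[ZMod p] V) : V →ₗ[ZMod p] V),
    ?_, ?_, ?_⟩
  · have h1 : finrank (ZMod p) S ≤ finrank (ZMod p)
        (⨅ g : {g : V ≃ₗ[ZMod p] V // Pres X g}, U.map ((g : V ≃ₗ[ZMod p] V) : V →ₗ[ZMod p] V) :
          Submodule (ZMod p) V) := fin_mono (le_iInf fun g => hSg g.1 g.2)
    have h2 : (i + 1) * k ≤ (M + 1) * K₀ := Nat.mul_le_mul (by omega) hkK
    omega
  · have h1 : finrank (ZMod p) (van X U) ≤ finrank (ZMod p) (van X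
        (⨅ g : {g : V ≃ₗ[ZMod p] V // Pres X g}, U.map ((g : V ≃ₗ[ZMod p] V) : V →ₗ[ZMod p] V))) := by
      refine fin_mono (van_anti X ?_)
      refine (iInf_le _ ⟨LinearEquiv.refl (ZMod p) V, Pres.refl X⟩).trans ?_
      rintro _ ⟨x, hx, rfl⟩
      exact hx
    have h2 : q ≤ (k + 1) * q := Nat.le_mul_of_pos_left q (by omega)
    omega
  · intro h hh
    refine Submodule.eq_of_le_of_finrank_eq ?_ (LinearEquiv.finrank_map_eq h _)
    rintro _ ⟨x, hx, rfl⟩
    rw [Submodule.mem_iInf]
    rintro ⟨g, hg⟩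
    have h1 := (Submodule.mem_iInf _).1 hx ⟨g.trans h.symm, hg.trans hh.symm⟩
    obtain ⟨u, hu, hu2⟩ := h1
    refine ⟨u, hu, ?_⟩
    rw [← hu2]
    simp

end Pool.Agent.Lib.MP4ccb00.LA
end

section
/-!
# MP_4ccb00_al: linear algebra, the dichotomy
-/
set_option autoImplicit false

namespace Pool.Agent.Lib.MP4ccb00.LA

open Module

variable {p : ℕ} [Fact p.Prime] {V : Type} [AddCommGroup V] [Module (ZMod p) V]
  [FiniteDimensional (ZMod p) V]

/-- the greedy choice of further vectors -/
theorem exists_more (X : Submodule (ZMod p) (Form p V)) : ∀ (t : ℕ) (T : Finset V),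
    finrank (ZMod p) (van X (Submodule.span (ZMod p) (T : Set V))) ≤ t →
    ∃ T' : Finset V, T'.card ≤ T.card + 2 * t ∧
      van X (Submodule.span (ZMod p) (T' : Set V)) = ⊥ := by
  classical
  intro t
  induction t with
  | zero =>
    intro T hT
    refine ⟨T, by omega, ?_⟩
    by_contra hcon
    have h1 := fin_lt (p := p) (bot_lt_iff_ne_bot.2 hcon)
    omega
  | succ t ih =>
    intro T hT
    by_cases h0 : van X (Submodule.span (ZMod p) (T : Set V)) = ⊥
    · exact ⟨T, by omega, h0⟩
    · obtain ⟨b, hb, hb0⟩ := Submodule.exists_mem_ne_zero_of_ne_bot h0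
      obtain ⟨x, y, hxy⟩ : ∃ x y, b x y ≠ 0 := by
        by_contra hcon
        push Not at hcon
        apply hb0
        ext x y
        exact hcon x y
      obtain ⟨T', h1, h2⟩ := ih (insert x (insert y T)) (by
        have h3 : van X (Submodule.span (ZMod p) ((insert x (insert y T) : Finset V) : Set V)) <
            van X (Submodule.span (ZMod p) (T : Set V)) := by
          refine lt_of_le_of_ne (van_anti X (Submodule.span_mono ?_)) ?_
          · intro z hz
            simp only [Finset.coe_insert, Set.mem_insert_iff]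
            exact Or.inr (Or.inr hz)
          · intro e
            rw [← e] at hb
            exact hxy (hb.2 x (Submodule.subset_span (by simp)) y
              (Submodule.subset_span (by simp)))
        have h4 := fin_lt (p := p) h3
        omega)
      refine ⟨T', ?_, h2⟩
      have h3 := Finset.card_insert_le x (insert y T)
      have h4 := Finset.card_insert_le y T
      omega

theorem numerics {N n k q C1 K₀ : ℕ} (hN : 0 < N) (hK : K₀ = 128 * N)
    (hC : C1 = 4 * N * (K₀ + 1)) (hk : k = n / (4 * N)) (hq : q = k / (K₀ + 1))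
    (hn : C1 * (8 * C1 * K₀ * K₀ + 4) ≤ n) :
    4 * (32 * N) ≤ k ∧ 2 * n + 2 ≤ 32 * N * k ∧ N * (4 * k) ≤ n ∧ (K₀ + 1) * q ≤ k ∧
      q / 2 + (4 * C1) * K₀ * K₀ ≤ q ∧ n < 4 * C1 * (q / 2) ∧ n ≤ 2 * C1 * q := by
  have h1 : 4 * N * k ≤ n := hk ▸ Nat.mul_div_le n (4 * N)
  have h2 : n < 4 * N * (k + 1) := by
    rw [hk]
    exact Nat.lt_mul_div_succ n (by omega)
  have h3 : (K₀ + 1) * q ≤ k := hq ▸ Nat.mul_div_le k (K₀ + 1)
  have h4 : k < (K₀ + 1) * (q + 1) := by
    rw [hq]
    exact Nat.lt_mul_div_succ k (by omega)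
  have h5 : n < C1 * (q + 1) := by
    rw [hC]
    calc n < 4 * N * (k + 1) := h2
      _ ≤ 4 * N * ((K₀ + 1) * (q + 1)) := Nat.mul_le_mul_left _ h4
      _ = 4 * N * (K₀ + 1) * (q + 1) := by ring
  have hC0 : 0 < C1 := by
    rw [hC]
    positivity
  have h6 : 8 * C1 * K₀ * K₀ + 4 < q + 1 := by
    by_contra hcon
    have := Nat.mul_le_mul_left C1 (not_lt.1 hcon)
    omega
  have h7 : 128 * N ≤ k := by
    have : 1 * q ≤ (K₀ + 1) * q := Nat.mul_le_mul_right _ (by omega)
    have h8 : K₀ + 1 ≤ (K₀ + 1) * q := Nat.le_mul_of_pos_right _ (by omega)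
    omega
  have e1 : 8 * C1 * K₀ * K₀ = 2 * (4 * C1 * K₀ * K₀) := by ring
  refine ⟨by omega, ?_, ?_, h3, by omega, ?_, ?_⟩
  · nlinarith
  · have : N * (4 * k) = 4 * N * k := by ring
    omega
  · have h9 : q + 1 ≤ 4 * (q / 2) := by omega
    calc n < C1 * (q + 1) := h5
      _ ≤ C1 * (4 * (q / 2)) := Nat.mul_le_mul_left _ h9
      _ = 4 * C1 * (q / 2) := by ring
  · have h9 : q + 1 ≤ 2 * q := by omega
    calc n ≤ C1 * (q + 1) := h5.le
      _ ≤ C1 * (2 * q) := Nat.mul_le_mul_left _ h9
      _ = 2 * C1 * q := by ring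

theorem specDICH : SpecDICH := by
  intro N hN
  obtain ⟨K₀, hK⟩ : ∃ K₀, K₀ = 128 * N := ⟨_, rfl⟩
  obtain ⟨C1, hC⟩ : ∃ C1, C1 = 4 * N * (K₀ + 1) := ⟨_, rfl⟩
  refine ⟨2 * C1, 4 * C1 * K₀, C1 * (8 * C1 * K₀ * K₀ + 4), ?_⟩
  intro p _ V _ _ _ X n hn hXA hX hV
  obtain ⟨k, hk⟩ : ∃ k, k = n / (4 * N) := ⟨_, rfl⟩
  obtain ⟨q, hq⟩ : ∃ q, q = k / (K₀ + 1) := ⟨_, rfl⟩
  obtain ⟨a1, a2, a3, a4, a5, a6, a7⟩ := numerics hN hK hC hk hq hn
  obtain ⟨T, hT, hT2⟩ := exists_T X n (32 * N) k hX (by omega) a1 a2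
  set L := van X (Submodule.span (ZMod p) (T : Set V)) with hL
  rcases Nat.lt_or_ge k (finrank (ZMod p) L) with hlt | hge
  · right
    obtain ⟨U₀, hU₀, hU₂⟩ := exists_isotropic (p := p) (2 * (32 * N)) V L
      ((van_le X _).trans hXA) (fun b hb => (hT2 b hb).le)
    have hC0 : 0 < C1 := by
      rw [hC]
      positivity
    obtain ⟨M, hM⟩ : ∃ M, M + 1 = 4 * C1 := ⟨4 * C1 - 1, by omega⟩
    obtain ⟨U, h1, h2, h3⟩ := exists_inv hXA (n := n) (q := q) (q' := q / 2) (M := M) (K₀ := K₀) hX
      (U₀ := U₀) (by omega) (by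
        have h4 : finrank (ZMod p) L ≤ finrank (ZMod p) (van X U₀) :=
          fin_mono fun b hb => ⟨hb.1, fun x hx y hy => hU₀ b hb x hx y hy⟩
        omega) (by rw [hM]; exact a5) (by rw [hM]; exact a6)
    refine ⟨U, by rw [hM] at h1; exact h1, ?_, h3⟩
    exact a7.trans (Nat.mul_le_mul_left _ h2)
  · left
    obtain ⟨T', h1, h2⟩ := exists_more X k T hge
    refine ⟨T', ?_, h2⟩
    refine le_trans (Nat.mul_le_mul_left N ?_) a3
    omega

end Pool.Agent.Lib.MP4ccb00.LA
end
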