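import Pool.Agent.Lib.MP_4ccb00_al.LA.Defs

/-!
# MP_4ccb00_al: linear algebra, the two packaged statements

`SpecDICH` (proved in `LA/Dich.lean`), `SpecINVA` (proved in `LA/Inva.lean`).
-/

set_option autoImplicit false

namespace Pool.Agent.Lib.MP4ccb00.LA

open Module

/-- **DICH**.  For every `N > 0` there are `N'`, `B`, `n₀` such that for all primes `p` and every space
`X` of dimension at most `n` (`n ≥ n₀`) of alternating forms on a space `V` of dimension at most
`n`: either there is a set `T` of at most `n / N` vectors such that only the zero form of `X` vanishes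
on the span of `T`, or there is a subspace `U` of codimension at most `B`, invariant under every
automorphism which preserves `X`, such that at least `n / N'` dimensions of `X` vanish on `U`. -/
def SpecDICH : Prop := ∀ N : ℕ, 0 < N → ∃ N' B n₀ : ℕ, ∀ (p : ℕ) [Fact p.Prime] (V : Type)
  [AddCommGroup V] [Module (ZMod p) V] [FiniteDimensional (ZMod p) V]
  (X : Submodule (ZMod p) (Form p V)) (n : ℕ), n₀ ≤ n → X ≤ Alt p V → finrank (ZMod p) X ≤ n →
  finrank (ZMod p) V ≤ n →
  (∃ T : Finset V, N * T.card ≤ n ∧ van X (Submodule.span (ZMod p) (T : Set V)) = ⊥) ∨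
  (∃ U : Submodule (ZMod p) V, finrank (ZMod p) V ≤ finrank (ZMod p) U + B ∧
    n ≤ N' * finrank (ZMod p) (van X U) ∧
    ∀ g : V ≃ₗ[ZMod p] V, (∀ b ∈ X, pull (g : V →ₗ[ZMod p] V) b ∈ X) →
      U.map (g : V →ₗ[ZMod p] V) = U)

/-- **INVA**.  A group acts on `V` by elements of `p`-power order; the invariant functionals have
dimension `δ`, and `dim V = δ + τ`.  Then the invariant alternating forms have dimension at most
`(δ ^ 2 + τ ^ 2) / 2`. -/
def SpecINVA : Prop := ∀ (p : ℕ) [Fact p.Prime] (V : Type) [AddCommGroup V] [Module (ZMod p) V]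
  [FiniteDimensional (ZMod p) V] (Γ : Type) [Group Γ] (ρ : Γ →* (V ≃ₗ[ZMod p] V)),
  (∀ g, ∃ k : ℕ, ρ g ^ p ^ k = 1) → ∀ τ : ℕ,
  finrank (ZMod p) V = finrank (ZMod p) (invD ρ) + τ →
  2 * finrank (ZMod p) (invA ρ) ≤ finrank (ZMod p) (invD ρ) ^ 2 + τ ^ 2

end Pool.Agent.Lib.MP4ccb00.LA
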